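import Pool.Agent.Helper6.OB.Goals

/-!
Project OB, packet DTS
-/

set_option autoImplicit false

namespace Pool.Agent.Helper95.OB

open Pool.Agent.Helper6.CS
open Pool.Agent.Helper6.OB
open Pool.Agent.Helper41.CS (Vx OOW limW len_app get_app_lt get_app_ge app_assoc len_nil nil_app
  app_nil len_sg get_sg over_nil over_app over_sg len_sub get_sub sub_app over_sub sub_eq_self
  sub_sg_self bdd_words code_fun len_isub get_isub isub_app isub_over isub_left isub_var)

set_option synthInstance.maxSize 1000000000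

theorem t_DTS : G_DTS := by
  intro hseq M _ a b f H g G hab hHi hgi k hdet hst F S U hB v v' hv hv' hEq i hi c c' hP
  have := hHi
  have := hgi
  have hB' : BSeq a G F S U :=
    ⟨hB.iF, hB.iS, hB.iU, hB.f0, hB.fs, hB.bk, fun j => (hB.gd j).1⟩
  obtain ⟨-, -, s3, s4, s5⟩ := hseq M a b (nH g H) _ F S U hab hB
  obtain ⟨-, s2, -, -, -⟩ := hseq M a b H G F S U hab hB'
  have hEq2 := pr_inj hEq
  rcases Nat.lt_or_ge k i with hki | hki
  · obtain rfl : i = k + 1 := le_antisymm hi hki
    obtain ⟨z, z', e, c₁, c₁', rfl, rfl, hz, hz', hae, heb, hP⟩ := hP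
    have hvz : Over b (v ++ z) := over_app hv (Over.mono hab hz)
    have hvz' : Over b (v' ++ z') := over_app hv' (Over.mono hab hz')
    have e1 := pr_inj (s5 hst v z hv hz)
    have e1' := pr_inj (s5 hst v' z' hv' hz')
    have g1 := ((hB.gd (v ++ z).len).2 (wv a F (v ++ z)) (s3 _ hvz) (s4 _).le).1
    have g1' := ((hB.gd (v' ++ z').len).2 (wv a F (v' ++ z')) (s3 _ hvz') (s4 _).le).1
    have h2 : (Cod.cd (Wd.of b fun e => H (wv a F (v ++ z) ++
          bl a e (S (v ++ z).len, U (v ++ z).len))) : M) =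
        Cod.cd (Wd.of b fun e => H (wv a F (v' ++ z') ++
          bl a e (S (v' ++ z').len, U (v' ++ z').len))) := by
      refine g1.trans (Eq.trans ?_ g1'.symm)
      rw [e1.1, e1'.1, hEq2.1]
    have h3 : (Wd.of b fun e => H (wv a F (v ++ z) ++
          bl a e (S (v ++ z).len, U (v ++ z).len))).get e =
        (Wd.of b fun e => H (wv a F (v' ++ z') ++
          bl a e (S (v' ++ z').len, U (v' ++ z').len))).get e := by
      rw [Cod.inj h2]
    rw [Wd.get_of_lt _ _ heb, Wd.get_of_lt _ _ heb, ← s2 (v ++ z) e, ← s2 (v' ++ z') e] at h3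
    have h4 := hdet F S U hB' (v ++ z ++ Wd.sg e) (v' ++ z' ++ Wd.sg e)
      (over_app hvz (over_sg heb)) (over_app hvz' (over_sg heb)) h3 k le_rfl c₁ c₁' hP
    simpa only [app_assoc] using h4
  · exact hdet F S U hB' v v' hv hv' hEq2.2 i hki c c' hP

end Pool.Agent.Helper95.OB
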